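import Pool.Agent.MP_86c931_ag.H56.RowsB

/-! Weight components, and finite generation of the invariants. -/

namespace Pool.Agent.MP_86c931_ag.H85

open MvPolynomial H56

/-- the weight of a variable -/
def wt (s : S18) : ℤ := 1 - (s.1 : ℕ)

lemma der_eq (D : Derivation ℂ P P) (p : P) : D p = ∑ s, D (X s) * pderiv s p := by
  induction p using MvPolynomial.induction_on with
  | C a => simp
  | add p q hp hq => simp only [map_add, mul_add, Finset.sum_add_distrib, hp, hq]
  | mul_X p i hp =>
    simp only [Derivation.leibniz, smul_eq_mul, mul_add, Finset.sum_add_distrib]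
    rw [hp, Finset.mul_sum,
      Finset.sum_eq_single (f := fun x => D (X x) * (p * pderiv x (X i))) i
        (fun s _ h => by rw [pderiv_X_of_ne (Ne.symm h)]; simp) (by simp),
      pderiv_X_self, mul_one, mul_comm p]
    exact congrArg _ (Finset.sum_congr rfl fun s _ => by ring)

lemma Dh_X (s : S18) : DhP (X s) = (wt s : ℂ) • X s := by
  obtain ⟨a, k⟩ := s
  fin_cases a <;> simp [DhP, wt, mkDerivation_X]

lemma Dh_monomial (a : S18 →₀ ℕ) (c : ℂ) :
    DhP (monomial a c) = ((Finsupp.weight wt a : ℤ) : ℂ) • monomial a c := by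
  rw [der_eq]
  simp only [Dh_X, smul_mul_assoc, X_mul_pderiv_monomial, ← Nat.cast_smul_eq_nsmul ℂ, smul_smul,
    ← Finset.sum_smul]
  congr 1
  rw [Finsupp.weight_apply, Finsupp.sum_fintype _ _ (by simp)]
  push_cast
  exact Finset.sum_congr rfl fun s _ => by simp [mul_comm]

lemma coeff_Dh (p : P) (a : S18 →₀ ℕ) :
    coeff a (DhP p) = ((Finsupp.weight wt a : ℤ) : ℂ) * coeff a p := by
  induction p using MvPolynomial.induction_on' with
  | monomial b c =>
    rw [Dh_monomial, coeff_smul, coeff_monomial, smul_eq_mul]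
    split_ifs with h <;> simp [h]
  | add p q hp hq => simp only [map_add, coeff_add, hp, hq, mul_add]

lemma Dh_iff (w : ℤ) (p : P) : DhP p = (w : ℂ) • p ↔ IsWeightedHomogeneous wt p w := by
  constructor
  · intro h a ha
    have := congrArg (coeff a) h
    rw [coeff_Dh, coeff_smul, smul_eq_mul] at this
    exact_mod_cast mul_right_cancel₀ ha this
  · intro h
    ext a
    rw [coeff_Dh, coeff_smul, smul_eq_mul]
    by_cases ha : coeff a p = 0
    · simp [ha]
    · rw [h ha]

lemma pr_mul (w w' : ℤ) (u p : P) (hu : DhP u = (w' : ℂ) • u) :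
    weightedHomogeneousComponent wt (w + w') (u * p) = u * weightedHomogeneousComponent wt w p := by
  rw [Dh_iff] at hu
  induction p using MvPolynomial.induction_on' with
  | monomial b c =>
    have hb := isWeightedHomogeneous_monomial wt b c rfl
    rw [weightedHomogeneousComponent_of_mem (hu.mul hb), weightedHomogeneousComponent_of_mem hb]
    by_cases h : w = Finsupp.weight wt b
    · rw [if_pos h, if_pos (by rw [h, add_comm])]
    · rw [if_neg h, if_neg (fun h' => h (by omega)), mul_zero]
  | add p q hp hq => simp only [map_add, hp, hq, mul_add]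

lemma der_hom {D : Derivation ℂ P P} (hD : ∀ s, (D (X s)).IsHomogeneous 1) {p : P} {n : ℕ}
    (hp : p.IsHomogeneous n) : (D p).IsHomogeneous n := by
  rcases n with _ | n
  · rw [← totalDegree_zero_iff_isHomogeneous, totalDegree_eq_zero_iff_eq_C] at hp
    rw [hp, derivation_C]
    exact isHomogeneous_zero _ _ _
  · rw [der_eq]
    refine IsHomogeneous.sum _ _ _ fun s _ => ?_
    have := (hD s).mul (hp.pderiv (i := s))
    rwa [Nat.add_sub_cancel, add_comm] at this

lemma der_comp {D : Derivation ℂ P P} (hD : ∀ s, (D (X s)).IsHomogeneous 1) (p : P) (n : ℕ) :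
    D (homogeneousComponent n p) = homogeneousComponent n (D p) := by
  induction p using MvPolynomial.induction_on' with
  | monomial b c =>
    have hb := isHomogeneous_monomial (d := b) c rfl
    rw [homogeneousComponent_of_mem hb, homogeneousComponent_of_mem (der_hom hD hb)]
    split_ifs <;> simp
  | add p q hp hq => simp only [map_add, hp, hq]

lemma De_hom (s : S18) : (DeP (X s)).IsHomogeneous 1 := by
  obtain ⟨a, k⟩ := s
  fin_cases a <;> simp only [DeP, mkDerivation_X]
  · exact isHomogeneous_zero _ _ _
  · exact isHomogeneous_X _ _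
  · exact (isHomogeneous_X _ _).neg

lemma Dh_hom (s : S18) : (DhP (X s)).IsHomogeneous 1 := by
  rw [Dh_X]
  exact (homogeneousSubmodule S18 ℂ 1).smul_mem _ (isHomogeneous_X _ _)

lemma comp_mem {p : P} (hp : p ∈ Pb) (n : ℕ) : homogeneousComponent n p ∈ Pb :=
  ⟨by rw [der_comp De_hom, hp.1, map_zero], by rw [der_comp Dh_hom, hp.2, map_zero]⟩

lemma comp_mul {t : P} {d : ℕ} (ht : t.IsHomogeneous d) (n : ℕ) (p : P) :
    homogeneousComponent n (p * t) = if d ≤ n then homogeneousComponent (n - d) p * t else 0 := by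
  induction p using MvPolynomial.induction_on' with
  | monomial b c =>
    have hb := isHomogeneous_monomial (d := b) c rfl
    rw [homogeneousComponent_of_mem (hb.mul ht), homogeneousComponent_of_mem hb]
    split_ifs <;> first | omega | simp
  | add p q hp hq =>
    rw [add_mul, map_add, hp, hq, map_add]
    split_ifs <;> simp [add_mul]

lemma fg (h1 : ∀ p : P, DhP p = 0 → ∃ i u, i ∈ Pb ∧ DhP u = -u ∧ p = i + DeP u)
    (h2 : ∀ u : P, DhP u = -u → DeP (DeP u) = 0 → DeP u = 0) : Pb.FG := by
  classical
  set S : Set P := {f | f ∈ Pb ∧ ∃ n, 0 < n ∧ f.IsHomogeneous n} with hS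
  obtain ⟨T, hTS, hT⟩ := (Submodule.fg_span_iff_fg_span_finset_subset (R := P) S).1
    (IsNoetherian.noetherian _)
  refine ⟨T, le_antisymm (Algebra.adjoin_le fun t ht => (hTS ht).1) ?_⟩
  have key : ∀ n, ∀ f ∈ Pb, f.IsHomogeneous n → f ∈ Algebra.adjoin ℂ (T : Set P) := by
    intro n
    induction n using Nat.strong_induction_on with
    | _ n ih =>
    intro f hf hn
    rcases Nat.eq_zero_or_pos n with rfl | hpos
    · rw [← totalDegree_zero_iff_isHomogeneous, totalDegree_eq_zero_iff_eq_C] at hn
      rw [hn]
      exact Subalgebra.algebraMap_mem _ _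
    have hfS : f ∈ Submodule.span P (T : Set P) := hT ▸ Submodule.subset_span ⟨hf, n, hpos, hn⟩
    obtain ⟨g, -, hg⟩ := Submodule.mem_span_finset.1 hfS
    choose i u hi hu e using fun t => h1 (weightedHomogeneousComponent wt 0 (g t)) (by
      rw [(Dh_iff 0 _).2 (weightedHomogeneousComponent_isWeightedHomogeneous _ _)]; simp)
    have e1 : f = ∑ t ∈ T, i t * t + DeP (∑ t ∈ T, u t * t) := by
      have h0 : weightedHomogeneousComponent wt 0 f = f :=
        ((Dh_iff 0 f).1 (by simpa using hf.2)).weightedHomogeneousComponent_same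
      rw [← h0, ← hg, map_sum, map_sum, ← Finset.sum_add_distrib]
      refine Finset.sum_congr rfl fun t ht => ?_
      have := pr_mul 0 0 t (g t) (by simpa using (hTS ht).1.2)
      rw [add_zero] at this
      rw [smul_eq_mul, mul_comm, this, e, Derivation.leibniz, (hTS ht).1.1]
      simp only [smul_eq_mul]
      ring
    have hiT : ∑ t ∈ T, i t * t ∈ Pb := sum_mem fun t ht => mul_mem (hi t) (hTS ht).1
    have e2 : DeP (∑ t ∈ T, u t * t) = 0 := by
      refine h2 _ ?_ ?_
      · rw [map_sum, ← Finset.sum_neg_distrib]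
        refine Finset.sum_congr rfl fun t ht => ?_
        rw [Derivation.leibniz, (hTS ht).1.2, hu]
        simp only [smul_eq_mul]
        ring
      · have := congrArg DeP e1
        rwa [map_add, hf.1, hiT.1, zero_add, eq_comm] at this
    rw [e2, add_zero] at e1
    rw [← homogeneousComponent_eq_self hn, e1, map_sum]
    refine sum_mem fun t ht => ?_
    obtain ⟨-, d, hd, htd⟩ := hTS ht
    rw [comp_mul htd]
    split_ifs with hdn
    · exact mul_mem (ih _ (by omega) _ (comp_mem (hi t) _) (homogeneousComponent_isHomogeneous _ _))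
        (Algebra.subset_adjoin ht)
    · exact zero_mem _
  intro f hf
  rw [← sum_homogeneousComponent f]
  exact sum_mem fun n _ => key n _ (comp_mem hf n) (homogeneousComponent_isHomogeneous _ _)

lemma cc_der {D : Derivation ℂ P P} (hD : ∀ s, constantCoeff (D (X s)) = 0) (p : P) (s' : S18) :
    constantCoeff (pderiv s' (D p)) =
      ∑ s, constantCoeff (pderiv s' (D (X s))) * constantCoeff (pderiv s p) := by
  rw [der_eq D p, map_sum, map_sum]
  refine Finset.sum_congr rfl fun s _ => ?_
  simp [Derivation.leibniz, hD, mul_comm]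

lemma lin {p : P} (hp : p ∈ Pb) (s : S18) : constantCoeff (pderiv s p) = 0 := by
  classical
  obtain ⟨a, k⟩ := s
  have hh : ∀ s : S18, wt s ≠ 0 → constantCoeff (pderiv s p) = 0 := by
    intro s hs
    have := cc_der (D := DhP) (fun s => by simp [Dh_X]) p s
    rw [hp.2, Finset.sum_eq_single s (fun t _ h => by simp [Dh_X, pderiv_X_of_ne h]) (by simp)]
      at this
    simpa [Dh_X, hs] using this.symm
  fin_cases a
  · exact hh _ (by simp [wt])
  · have := cc_der (D := DeP) (fun s => by
      obtain ⟨a, k⟩ := s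
      fin_cases a <;> simp [DeP, mkDerivation_X]) p (0, k)
    rw [hp.1, Finset.sum_eq_single (1, k) (fun t _ h => by
      obtain ⟨a, l⟩ := t
      fin_cases a <;> simp [DeP, mkDerivation_X, pderiv_X, Pi.single_apply]
      intro h'
      exact (h (by simp [h'])).elim) (by simp)] at this
    simpa [DeP, mkDerivation_X] using this.symm
  · exact hh _ (by simp [wt])

theorem rowINV : RowINV :=
  ⟨⟨fun w => weightedHomogeneousComponent wt w,
    fun w _ => (Dh_iff w _).2 (weightedHomogeneousComponent_isWeightedHomogeneous _ _),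
    fun w p h => ((Dh_iff w p).1 h).weightedHomogeneousComponent_same, pr_mul⟩, fg,
    fun _ hp s => lin hp s⟩

end Pool.Agent.MP_86c931_ag.H85
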